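import Mathlib
import Pool.Agent.J4H26.KP.Q2
import Pool.Agent.J4H26.KT.W2

set_option autoImplicit false

/-! Project SI (short intervals): every invariant set of positive density has many elements in almost all intervals of
length `exp (C √ log N)`.  Exact statements. -/

namespace Pool.Agent.J4H26.SI

open Finset Filter Real
open Pool.Agent.J4H39 (T od)
open Pool.Agent.J4H26.PC (InvS ct kS)
open Pool.Agent.J4H26.KP (gR S_UNM2 S_RST S_CENTK)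

/-- (I1) In the residue classes `c i` modulo `2 ^ m` with `D i` odd steps, the `D i` far from each other, the fates are
independent.
Proof.  `F i = gR s R` (or `gR s Rᶜ`) is invariant, so `F (2 ^ m y + c i) = F (T^[m] (2 ^ m y + c i)) = F (3 ^ D i y + T^[m] (c i))`
with `0 ≤ T^[m] (c i) < 3 ^ D i ≤ 4 ^ m` (`T_lt`); so the mean is `ccK F κ X D (fun i => T^[m] (c i))`, within `ε / 2` of
`ccK F κ X D 0` (`S_RST`), within `ε / 2` of `∏ μ i` (`S_UNM2`, `S_CENTK` with one set). -/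
def S_CLS : Prop := ∀ (K : ℕ) (ε : ℝ), 0 < ε → ∃ G : ℝ, 0 < G ∧ ∀ᶠ L : ℕ in atTop, ∀ s : ℤ, (s = 1 ∨ s = -1) → ∀ R : Set ℤ,
  InvS s R → ∀ δ : ℝ, Tendsto (fun N : ℕ => ct s R N / N) atTop (nhds δ) → ∀ X : ℝ, 0 < X → (L : ℝ) ≤ logb 2 X →
  logb 2 X ≤ 4 * L → ∀ (m : ℕ) (D : Fin K → ℕ), (m : ℝ) ≤ (L : ℝ) ^ (11 / 20 : ℝ) →
  (∀ i j, i ≠ j → G * √L ≤ |(D i : ℝ) - D j|) → ∀ c : Fin K → ℤ, (∀ i, 0 ≤ c i ∧ c i < 2 ^ m ∧ od m (c i) = D i) →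
  |(∑ y ∈ Finset.Ico ⌈kS s * X⌉ ⌈kS s * X + X⌉, ∏ i, gR s R (2 ^ m * y + c i)) / max X 1 - δ ^ K| ≤ ε

/-- (I2) the number of the residue classes with `D` odd steps -/
def S_NUM : Prop := ∀ κ : ℝ, 0 < κ → ∃ κ' : ℝ, 0 < κ' ∧ ∀ᶠ m : ℕ in atTop, ∀ D : ℕ, |2 * (D : ℝ) - m| ≤ κ' * m →
  (2 : ℝ) ^ ((1 - κ) * m) ≤ #((Finset.range (2 ^ m)).filter fun c : ℕ => od m (c : ℤ) = D)

/-- (I3) blocks `2 ^ m y + [0, 2 ^ m)`.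
Proof.  Choose `K` with `((1 - δ₀) / (1 - δ₀ / 2)) ^ K ≤ η / 4`, `G` by (I1) for `ε = η (1 - δ₀ / 2) ^ K / 4`, `D i = m / 2 - i d`,
`d = ⌈G √L⌉`; since `m ≥ C √L` with `C` large these are near `m / 2` as in (I2).  Let `A i y` be the proportion, among the
classes `c` with `D i` odd steps, of those with `2 ^ m y + c ∉ R`.  By (I1) for `Rᶜ` the mean over `y` of `∏ A i y` is at most
`(1 - δ₀) ^ K + ε`, so `A i y ≥ 1 - δ₀ / 2` for all `i` for at most `η X / 2` of the `y`; for the other `y` some class gives at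
least `δ₀ / 2 * 2 ^ ((1 - κ / 2) m) ≥ 2 ^ ((1 - κ) m)` elements of `R`. -/
def S_BLO : Prop := ∀ η κ δ₀ : ℝ, 0 < η → 0 < κ → 0 < δ₀ → ∃ C : ℝ, 0 < C ∧ ∀ᶠ L : ℕ in atTop, ∀ s : ℤ, (s = 1 ∨ s = -1) →
  ∀ R : Set ℤ, InvS s R → ∀ δ : ℝ, Tendsto (fun N : ℕ => ct s R N / N) atTop (nhds δ) → δ₀ ≤ δ → ∀ X : ℝ, 0 < X →
  (L : ℝ) ≤ logb 2 X → logb 2 X ≤ 4 * L → ∀ m : ℕ, C * √L ≤ m → (m : ℝ) ≤ (L : ℝ) ^ (11 / 20 : ℝ) →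
  (#((Finset.Ico ⌈kS s * X⌉ ⌈kS s * X + X⌉).filter fun y : ℤ =>
    ({c : ℕ | c < 2 ^ m ∧ 2 ^ m * y + c ∈ R}.ncard : ℝ) < (2 : ℝ) ^ ((1 - κ) * m)) : ℝ) ≤ η * X

/-- (I4) **many elements in almost all short intervals**, for every length from `exp (C √ log N)` to `√N`.
Proof.  Let `m = ⌈2 C' √ log₂ N⌉`, `C'` from (I3) (with `κ / 2`, `η / 8`), `L = ⌊log₂ (N / 2 ^ m)⌋`.  For `2 ^ (m + 1) ≤ H ≤ √N` the
interval `n + 1, …, n + H` contains at least `H / 2 ^ (m + 1)` consecutive blocks `2 ^ m y + [0, 2 ^ m)`; by (I3) and Markov's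
inequality half of them are good for all but `η N` of the `n`, which gives
`(H / 2 ^ (m + 2)) 2 ^ ((1 - κ / 2) m) ≥ H ^ (1 - κ)` elements of `R`. -/
def S_SI : Prop := ∀ η κ δ₀ : ℝ, 0 < η → 0 < κ → κ < 1 → 0 < δ₀ → ∃ C : ℝ, 0 < C ∧ ∀ᶠ N : ℕ in atTop, ∀ H : ℕ,
  exp (C * √(log N)) ≤ H → (H : ℝ) ≤ √N → ∀ s : ℤ, (s = 1 ∨ s = -1) → ∀ R : Set ℤ, InvS s R → ∀ δ : ℝ,
  Tendsto (fun N : ℕ => ct s R N / N) atTop (nhds δ) → δ₀ ≤ δ →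
  ({n : ℕ | (1 ≤ n ∧ n ≤ N) ∧ ({h : ℕ | (1 ≤ h ∧ h ≤ H) ∧ s * n + h ∈ R}.ncard : ℝ) < (H : ℝ) ^ (1 - κ)}.ncard : ℝ) ≤ η * N

end Pool.Agent.J4H26.SI
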