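import Mathlib
import Pool.Agent.J4H26.KP.Main
import Pool.Agent.J4H26.SI.Stm
import Pool.Agent.J4H30.SI.Cls
import Pool.Agent.J4H86.SI.Num
import Pool.Agent.J4H18.SI.Blo
import Pool.Agent.J4H72.SI.Si

set_option autoImplicit false

/-! Project SI: assembly. -/

namespace Pool.Agent.J4H26.SI

theorem k_CLS : S_CLS := Pool.Agent.J4H30.SI.t_CLS Pool.Agent.J4H26.KP.k_UNM2 Pool.Agent.J4H26.KP.k_RST Pool.Agent.J4H26.KP.k_CENTK
theorem k_NUM : S_NUM := Pool.Agent.J4H86.SI.t_NUM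
theorem k_BLO : S_BLO := Pool.Agent.J4H18.SI.t_BLO k_CLS k_NUM
theorem main_SI : S_SI := Pool.Agent.J4H72.SI.t_SI k_BLO

end Pool.Agent.J4H26.SI
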