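import Mathlib
import Pool.Agent.J4H26.SI.Main

set_option autoImplicit false

/-! Project SI: many elements in almost all short intervals, sharper form (after `J4H72/SI/Si.lean`). -/

namespace Pool.Agent.J4H26.SI

open Finset Filter Real
open Pool.Agent.J4H26.PC (InvS ct kS)
open Pool.Agent.J4H72.SI (comb)

/-- (I5) for every length `H` from `exp (C √ log N)` to `√N`, almost all intervals of length `H` contain at least
`H exp (-C √ log N)` elements of `R` -/
def S_SI2 : Prop := ∀ η δ₀ : ℝ, 0 < η → 0 < δ₀ → ∃ C : ℝ, 0 < C ∧ ∀ᶠ N : ℕ in atTop, ∀ H : ℕ,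
  exp (C * √(log N)) ≤ H → (H : ℝ) ≤ √N → ∀ s : ℤ, (s = 1 ∨ s = -1) → ∀ R : Set ℤ, InvS s R → ∀ δ : ℝ,
  Tendsto (fun N : ℕ => ct s R N / N) atTop (nhds δ) → δ₀ ≤ δ →
  ({n : ℕ | (1 ≤ n ∧ n ≤ N) ∧
    ({h : ℕ | (1 ≤ h ∧ h ≤ H) ∧ s * n + h ∈ R}.ncard : ℝ) < H * exp (-C * √(log N))}.ncard : ℝ) ≤ η * N

theorem t_SI2 : S_BLO → S_SI2 := by
  intro hblo η δ₀ hη hδ₀
  classical
  obtain ⟨C', hC', hev⟩ := hblo (η / 8) 1 δ₀ (by positivity) (by norm_num) hδ₀
  obtain ⟨L₀, hL₀⟩ := eventually_atTop.1 hev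
  refine ⟨2 * C' + 4, by positivity, ?_⟩
  -- the conditions on `N`
  have hΛ : Tendsto (fun N : ℕ => logb 2 (N : ℝ)) atTop atTop :=
    (tendsto_logb_atTop (by norm_num)).comp tendsto_natCast_atTop_atTop
  have hΛ2 : Tendsto (fun N : ℕ => logb 2 (N : ℝ) / 2) atTop atTop := hΛ.atTop_div_const (by norm_num)
  have hsqΛ : Tendsto (fun N : ℕ => √(logb 2 (N : ℝ))) atTop atTop := Real.tendsto_sqrt_atTop.comp hΛ
  have hp : Tendsto (fun N : ℕ => (logb 2 (N : ℝ) / 2) ^ (1 / 20 : ℝ)) atTop atTop :=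
    (tendsto_rpow_atTop (by norm_num)).comp hΛ2
  have hsN : Tendsto (fun N : ℕ => √(N : ℝ)) atTop atTop := Real.tendsto_sqrt_atTop.comp tendsto_natCast_atTop_atTop
  have hlN : Tendsto (fun N : ℕ => log (N : ℝ)) atTop atTop := Real.tendsto_log_atTop.comp tendsto_natCast_atTop_atTop
  filter_upwards [hΛ2.eventually_ge_atTop (L₀ : ℝ), hΛ2.eventually_ge_atTop 1,
    hp.eventually_ge_atTop (2 * C' * √2 + 1),
    hsqΛ.eventually_ge_atTop (4 * C' + 2), hsN.eventually_ge_atTop (2 / η), hlN.eventually_ge_atTop 1,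
    eventually_ge_atTop 4] with N e1 e2 e3 e5 e6 e7 e8
  intro H hH1 hH2 s hs R hR δ hδ hδδ
  set Λ : ℝ := logb 2 (N : ℝ) with hΛd
  have hN0 : (0 : ℝ) < N := by exact_mod_cast (by omega : 0 < N)
  have hΛ0 : 2 ≤ Λ := by linarith
  have hs0 : 0 ≤ √Λ := Real.sqrt_nonneg _
  have hss : √Λ * √Λ = Λ := Real.mul_self_sqrt (by linarith)
  obtain ⟨m, hm⟩ : ∃ m : ℕ, m = ⌈2 * C' * √Λ⌉₊ := ⟨_, rfl⟩
  have hm1 : 2 * C' * √Λ ≤ m := by rw [hm]; exact Nat.le_ceil _
  have hm2 : (m : ℝ) ≤ 2 * C' * √Λ + 1 := by rw [hm]; exact (Nat.ceil_lt_add_one (by positivity)).le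
  have hm3 : (m : ℝ) ≤ Λ / 2 := by
    have h1 : (4 * C' + 2) * √Λ ≤ √Λ * √Λ := mul_le_mul_of_nonneg_right e5 hs0
    rw [hss] at h1
    have h2 : 1 ≤ √Λ := by
      have : (0 : ℝ) < C' := hC'
      linarith
    linarith
  obtain ⟨q, hq⟩ : ∃ q : ℕ, q = 2 ^ m := ⟨_, rfl⟩
  have hqR : (q : ℝ) = 2 ^ m := by rw [hq]; push_cast; rfl
  have hq0 : (0 : ℝ) < q := by rw [hqR]; positivity
  obtain ⟨X, hX⟩ : ∃ X : ℝ, X = 2 * N / q := ⟨_, rfl⟩
  have hX0 : 0 < X := by rw [hX]; positivity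
  have hqX : (q : ℝ) * X = 2 * N := by rw [hX]; field_simp
  have hlX : logb 2 X = 1 + Λ - m := by
    rw [hX, Real.logb_div (by positivity) (by positivity), Real.logb_mul (by norm_num) hN0.ne', hqR,
      Real.logb_pow, Real.logb_self_eq_one (by norm_num), mul_one]
  obtain ⟨L, hL⟩ : ∃ L : ℕ, L = ⌊logb 2 X⌋₊ := ⟨_, rfl⟩
  have hlX0 : 0 ≤ logb 2 X := by rw [hlX]; linarith
  have hL1 : (L : ℝ) ≤ logb 2 X := by rw [hL]; exact Nat.floor_le hlX0
  have hL2 : logb 2 X < L + 1 := by rw [hL]; exact Nat.lt_floor_add_one _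
  have hL3 : Λ / 2 ≤ L := by rw [hlX] at hL2; linarith
  have hL4 : L₀ ≤ L := by exact_mod_cast e1.trans hL3
  have hL5 : (1 : ℝ) ≤ L := e2.trans hL3
  have key := hL₀ L hL4 s hs R hR δ hδ hδδ X hX0 hL1 (by linarith) m (by
      have h1 : √(L : ℝ) ≤ 2 * √Λ := by
        rw [Real.sqrt_le_left (by positivity)]
        rw [hlX] at hL1
        nlinarith [Nat.cast_nonneg (α := ℝ) m]
      calc C' * √(L : ℝ) ≤ C' * (2 * √Λ) := mul_le_mul_of_nonneg_left h1 hC'.le
        _ = 2 * C' * √Λ := by ring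
        _ ≤ m := hm1) (by
      have hx1 : (1 : ℝ) ≤ Λ / 2 := e2
      have hx0 : (0 : ℝ) < Λ / 2 := by linarith
      have h1 : (Λ / 2) ^ (11 / 20 : ℝ) ≤ (L : ℝ) ^ (11 / 20 : ℝ) := Real.rpow_le_rpow hx0.le hL3 (by norm_num)
      refine le_trans ?_ h1
      have h2 : (Λ / 2) ^ (11 / 20 : ℝ) = √(Λ / 2) * (Λ / 2) ^ (1 / 20 : ℝ) := by
        rw [Real.sqrt_eq_rpow, ← Real.rpow_add hx0]
        norm_num
      have h3 : 1 ≤ √(Λ / 2) := Real.one_le_sqrt.2 hx1
      have h4 : √Λ = √2 * √(Λ / 2) := by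
        rw [← Real.sqrt_mul (by norm_num)]
        congr 1
        ring
      rw [h2]
      calc (m : ℝ) ≤ 2 * C' * √Λ + 1 := hm2
        _ = √(Λ / 2) * (2 * C' * √2) + 1 := by rw [h4]; ring
        _ ≤ √(Λ / 2) * (2 * C' * √2) + √(Λ / 2) * 1 := by linarith
        _ = √(Λ / 2) * (2 * C' * √2 + 1) := by ring
        _ ≤ √(Λ / 2) * (Λ / 2) ^ (1 / 20 : ℝ) := mul_le_mul_of_nonneg_left e3 (Real.sqrt_nonneg _))
  set B : Finset ℤ := (Finset.Ico ⌈kS s * X⌉ ⌈kS s * X + X⌉).filter fun y : ℤ =>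
    ({c : ℕ | c < 2 ^ m ∧ 2 ^ m * y + c ∈ R}.ncard : ℝ) < (2 : ℝ) ^ ((1 - (1 : ℝ)) * m) with hB
  -- the size of `H`
  have hHN : (H : ℝ) ≤ N := by
    refine hH2.trans ?_
    have h1 : (1 : ℝ) ≤ √(N : ℝ) := Real.one_le_sqrt.2 (by exact_mod_cast (by omega : 1 ≤ N))
    have h2 : √(N : ℝ) * √(N : ℝ) = N := Real.mul_self_sqrt hN0.le
    nlinarith
  have hHN' : H < N := by
    have h1 : (2 : ℝ) ≤ √(N : ℝ) := by
      apply Real.le_sqrt_of_sq_le
      have : (4 : ℝ) ≤ N := by exact_mod_cast e8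
      linarith
    have h2 : √(N : ℝ) * √(N : ℝ) = N := Real.mul_self_sqrt hN0.le
    have h3 : (H : ℝ) < N := by nlinarith
    exact_mod_cast h3
  have h8e : (8 : ℝ) * q ≤ exp ((2 * C' + 4) * √(log N)) := by
    have hl2 : 0 < log 2 := Real.log_pos (by norm_num)
    have hl21 : log 2 < 1 := by
      have := Real.log_two_lt_d9
      linarith
    have hq2 : (8 : ℝ) * q = exp (log 2 * (m + 3)) := by
      rw [hqR, mul_add, Real.exp_add, ← Real.rpow_def_of_pos (by norm_num), Real.rpow_natCast,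
        show log 2 * 3 = log 2 * ((3 : ℕ) : ℝ) by norm_num, ← Real.rpow_def_of_pos (by norm_num), Real.rpow_natCast]
      norm_num
      ring
    rw [hq2]
    apply Real.exp_le_exp.2
    have h2 : Λ * log 2 = log N := by
      rw [hΛd, ← Real.log_div_log, div_mul_cancel₀ _ hl2.ne']
    have h3 : √Λ * log 2 ≤ √(log N) := by
      apply Real.le_sqrt_of_sq_le
      rw [mul_pow, sq, hss, ← h2]
      nlinarith
    have h4 : 1 ≤ √(log (N : ℝ)) := Real.one_le_sqrt.2 e7
    calc log 2 * (m + 3) ≤ log 2 * (2 * C' * √Λ + 1 + 3) := by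
          apply mul_le_mul_of_nonneg_left _ hl2.le
          linarith
      _ = 2 * C' * (√Λ * log 2) + 4 * log 2 := by ring
      _ ≤ 2 * C' * √(log N) + 4 * √(log N) := by
          have := mul_le_mul_of_nonneg_left h3 (by positivity : 0 ≤ 2 * C')
          linarith
      _ = (2 * C' + 4) * √(log N) := by ring
  have h8q : 8 * q ≤ H := by
    have h2 := h8e.trans hH1
    exact_mod_cast h2
  have hH0 : (0 : ℝ) < H := by
    have : (8 : ℝ) * q ≤ H := by exact_mod_cast h8q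
    linarith
  have hqH : (q : ℝ) ≤ H := by
    have : (8 : ℝ) * q ≤ H := by exact_mod_cast h8q
    linarith
  -- the threshold
  have h8qe : (8 : ℝ) * q ≤ exp ((2 * C' + 4) * √(log N)) := h8e
  have hW : (H : ℝ) * exp (-(2 * C' + 4) * √(log N)) ≤ (H : ℝ) / (4 * q) * (2 : ℝ) ^ ((1 - (1 : ℝ)) * m) := by
    have h1 : (2 : ℝ) ^ ((1 - (1 : ℝ)) * m) = 1 := by
      rw [sub_self, zero_mul, Real.rpow_zero]
    rw [h1, mul_one, neg_mul, Real.exp_neg, div_eq_mul_inv]
    apply mul_le_mul_of_nonneg_left _ hH0.le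
    apply inv_anti₀ (by positivity)
    linarith
  set E : Finset ℕ := (Icc 1 N).filter (fun n => H < n ∧
    ({h : ℕ | (1 ≤ h ∧ h ≤ H) ∧ s * n + h ∈ R}.ncard : ℝ) < (H : ℝ) * exp (-(2 * C' + 4) * √(log N))) with hEd
  have hmain := comb (q := q) (H := H) (by
      have : 0 < q := by rw [hq]; positivity
      omega) h8q hs R (t := (2 : ℝ) ^ ((1 - (1 : ℝ)) * m)) (W := (H : ℝ) * exp (-(2 * C' + 4) * √(log N))) (by positivity) hW B E
    (fun n hn => by
      simp only [hEd, mem_filter] at hn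
      exact hn.2.2)
    (fun n hn y hy1 hy2 hyB => by
      simp only [hEd, mem_filter, mem_Icc] at hn
      obtain ⟨⟨hn1, hnN⟩, hnH, _⟩ := hn
      by_contra hcon
      rw [not_le] at hcon
      apply hyB
      rw [hB, mem_filter]
      constructor
      · rw [mem_Ico, Int.ceil_le, Int.lt_ceil]
        have hqz : (0 : ℤ) < q := by exact_mod_cast hq0
        have hq1z : (1 : ℤ) ≤ q := hqz
        have hnNz : (n : ℤ) ≤ N := by exact_mod_cast hnN
        have hHNz : (H : ℤ) < N := by exact_mod_cast hHN'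
        have hnHz : (H : ℤ) < n := by exact_mod_cast hnH
        have hup : q * y < 2 * (N : ℤ) := by
          rcases hs with rfl | rfl <;> linarith
        have hupR : (q : ℝ) * y < 2 * N := by exact_mod_cast hup
        rcases hs with rfl | rfl
        · have h1 : kS 1 = 0 := by unfold kS; simp
          rw [h1, zero_mul, zero_add]
          constructor
          · have h2 : 0 < q * y := by
              have : (0 : ℤ) ≤ n := Int.natCast_nonneg n
              linarith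
            have h3 : 0 < y := by
              by_contra h4
              have := mul_nonpos_of_nonneg_of_nonpos hqz.le (not_lt.1 h4)
              linarith
            exact_mod_cast h3.le
          · rw [← hqX] at hupR
            exact lt_of_mul_lt_mul_left hupR hq0.le
        · have h1 : kS (-1) = -1 := by unfold kS; norm_num
          rw [h1]
          constructor
          · have h2 : -(2 * (N : ℤ)) ≤ q * y := by linarith
            have h3 : -(2 * (N : ℝ)) ≤ (q : ℝ) * y := by exact_mod_cast h2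
            rw [← hqX] at h3
            have h4 : (q : ℝ) * (-1 * X) ≤ (q : ℝ) * y := by linarith
            exact le_of_mul_le_mul_left h4 hq0
          · have h2 : q * y < 0 := by linarith
            have h3 : y < 0 := by
              by_contra h4
              have := mul_nonneg hqz.le (not_lt.1 h4)
              linarith
            have h5 : (y : ℝ) < 0 := by exact_mod_cast h3
            linarith
      · have h1 : {c : ℕ | c < 2 ^ m ∧ 2 ^ m * y + c ∈ R} = {c : ℕ | c < q ∧ (q : ℤ) * y + c ∈ R} := by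
          ext c
          rw [hq]
          push_cast
          rfl
        rw [h1]
        exact hcon)
  -- conclusion
  have hsub : {n : ℕ | (1 ≤ n ∧ n ≤ N) ∧ ({h : ℕ | (1 ≤ h ∧ h ≤ H) ∧ s * n + h ∈ R}.ncard : ℝ) < (H : ℝ) * exp (-(2 * C' + 4) * √(log N))} ⊆
      ((E ∪ Icc 1 H : Finset ℕ) : Set ℕ) := by
    rintro n ⟨⟨h1, h2⟩, h3⟩
    rw [mem_coe, mem_union]
    by_cases h4 : H < n
    · left
      rw [hEd, mem_filter, mem_Icc]
      exact ⟨⟨h1, h2⟩, h4, h3⟩
    · right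
      rw [mem_Icc]
      exact ⟨h1, not_lt.1 h4⟩
  have hcard : {n : ℕ | (1 ≤ n ∧ n ≤ N) ∧ ({h : ℕ | (1 ≤ h ∧ h ≤ H) ∧ s * n + h ∈ R}.ncard : ℝ) < (H : ℝ) * exp (-(2 * C' + 4) * √(log N))}.ncard ≤
      E.card + H := by
    refine (Set.ncard_le_ncard hsub (Finset.finite_toSet _)).trans ?_
    rw [Set.ncard_coe_finset]
    refine (card_union_le _ _).trans ?_
    rw [Nat.card_Icc]
    omega
  have hcR : ({n : ℕ | (1 ≤ n ∧ n ≤ N) ∧ ({h : ℕ | (1 ≤ h ∧ h ≤ H) ∧ s * n + h ∈ R}.ncard : ℝ) < (H : ℝ) * exp (-(2 * C' + 4) * √(log N))}.ncard : ℝ) ≤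
      E.card + H := by exact_mod_cast hcard
  refine hcR.trans ?_
  have h1 : (E.card : ℝ) ≤ η / 2 * N := by
    refine hmain.trans ?_
    have h2 : 2 * (q : ℝ) * B.card ≤ 2 * q * (η / 8 * X) := mul_le_mul_of_nonneg_left key (by positivity)
    have h3 : 2 * (q : ℝ) * (η / 8 * X) = η / 4 * (q * X) := by ring
    rw [h3, hqX] at h2
    linarith
  have h2 : (H : ℝ) ≤ η / 2 * N := by
    refine hH2.trans ?_
    have h3 : √(N : ℝ) * √(N : ℝ) = N := Real.mul_self_sqrt hN0.le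
    rw [div_le_iff₀ hη] at e6
    have h4 : 0 ≤ √(N : ℝ) := Real.sqrt_nonneg _
    nlinarith
  linarith

theorem main_SI2 : S_SI2 := t_SI2 k_BLO

end Pool.Agent.J4H26.SI
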